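import Pool.Agent.Lib.MP_4fbe7c_an.ND.Iface

/-!
# Project ND, module DV0 (helper20)
-/

set_option autoImplicit false

open Set MeasureTheory

namespace Pool.Agent.Lib.MP_4fbe7c_an.ND.H20

open Pool.Agent.Lib.MP_4fbe7c_an.ND

theorem dv0_st : Dv0Statement := by
  intro p G D hD hDc hGs
  have hDf : D = fderiv ℝ G := funext fun x => (hD x).fderiv.symm
  have hDs : HasCompactSupport D := by
    rw [hDf]
    exact hGs.fderiv ℝ
  have hGc : Continuous G := continuous_iff_continuousAt.2 fun x => (hD x).continuousAt
  -- the partial derivatives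
  have hint : ∀ i : Fin p,
      Integrable (fun x => D x (EuclideanSpace.single i 1) i) := by
    intro i
    apply Continuous.integrable_of_hasCompactSupport
    · have h1 : Continuous fun x => D x (EuclideanSpace.single i 1) :=
        hDc.clm_apply continuous_const
      exact (EuclideanSpace.proj (𝕜 := ℝ) i).continuous.comp h1
    · exact hDs.comp_left (g := fun A : Eu p →L[ℝ] Eu p => A (EuclideanSpace.single i 1) i)
        (by simp)
  have hG : ∀ i : Fin p, Integrable (fun x => G x i) := by
    intro i
    apply Continuous.integrable_of_hasCompactSupport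
    · exact (EuclideanSpace.proj (𝕜 := ℝ) i).continuous.comp hGc
    · exact hGs.comp_left (g := fun y : Eu p => y i) (by simp)
  unfold tr
  rw [integral_finsetSum _ fun i _ => hint i]
  refine Finset.sum_eq_zero fun i _ => ?_
  have h := integral_bilinear_hasFDerivAt_right_eq_neg_left_of_integrable (μ := volume)
    (f := fun _ : Eu p => (1 : ℝ)) (f' := fun _ => 0) (g := fun x => G x i)
    (g' := fun x => (EuclideanSpace.proj (𝕜 := ℝ) i).comp (D x))
    (v := EuclideanSpace.single i 1) (B := ContinuousLinearMap.mul ℝ ℝ)
    (by simp) (by simpa using hint i) (by simpa using hG i)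
    (fun x _ => hasFDerivAt_const _ _)
    (fun x _ => (EuclideanSpace.proj (𝕜 := ℝ) i).hasFDerivAt.comp x (hD x))
  simpa using h

end Pool.Agent.Lib.MP_4fbe7c_an.ND.H20
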